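import Pool.Agent.helper23.F2.Spec
import Pool.Agent.helper38.TH.WI

set_option autoImplicit false

open scoped BigOperators

namespace Pool.Agent.F2

open Pool.Agent.helper23.TH

theorem MT9_pow {V : Type} [Fintype V] (A : V → V → Prop) (hA : ∀ u v, A u v → A v u) (t : ℕ)
    (ht : 1 ≤ t) : hh A (t - 1) ^ t ≤ (Fintype.card V : ℝ) * hh A t ^ (t - 1) := by
  classical
  rcases Nat.lt_or_ge t 2 with h2 | h2
  · have h1 : t = 1 := by omega
    subst h1
    rw [WI_hh A hA (1 - 1)]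
    simp
  · have hμ : ∀ i, 0 ≤ (WI_herm A hA).eigenvalues i ^ 2 := fun i => sq_nonneg _
    have h := WI_holder (fun i => (WI_herm A hA).eigenvalues i ^ 2) hμ t h2
    have h3 : ∀ k : ℕ, hh A k = ∑ i, ((WI_herm A hA).eigenvalues i ^ 2) ^ k := by
      intro k
      rw [WI_hh A hA k]
      refine Finset.sum_congr rfl fun i _ => ?_
      rw [pow_mul]
    rw [← h3, ← h3] at h
    have h0 : 0 ≤ hh A (t - 1) := by
      rw [h3]
      exact Finset.sum_nonneg fun i _ => pow_nonneg (hμ i) _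
    have h0' : 0 ≤ hh A t := by
      rw [h3]
      exact Finset.sum_nonneg fun i _ => pow_nonneg (hμ i) _
    have htpos : (0 : ℝ) < t := by
      have : (2 : ℝ) ≤ t := by exact_mod_cast h2
      linarith
    have h4 := pow_le_pow_left₀ h0 h t
    rw [mul_pow] at h4
    have h5 : (hh A t ^ (((t : ℝ) - 1) / t)) ^ t = hh A t ^ (t - 1) := by
      rw [← Real.rpow_natCast (hh A t ^ (((t : ℝ) - 1) / t)) t, ← Real.rpow_mul h0',
        ← Real.rpow_natCast (hh A t) (t - 1)]
      congr 1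
      rw [Nat.cast_sub (by omega)]
      push_cast
      field_simp
    have h6 : ((Fintype.card V : ℝ) ^ (1 / (t : ℝ))) ^ t = (Fintype.card V : ℝ) := by
      rw [← Real.rpow_natCast ((Fintype.card V : ℝ) ^ (1 / (t : ℝ))) t,
        ← Real.rpow_mul (Nat.cast_nonneg _)]
      have : 1 / (t : ℝ) * t = 1 := by field_simp
      rw [this, Real.rpow_one]
    rw [h5, h6, mul_comm] at h4
    exact h4

theorem MT9 : MT9_stmt := by
  intro V _ A hA t Δ η ht hΔ hη h
  have h1 := MT9_pow A hA t ht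
  have hn : ∀ k, 0 ≤ hh A k := fun k =>
    Finset.sum_nonneg fun a _ => Finset.sum_nonneg fun b _ => sq_nonneg _
  have ht0 : t ≠ 0 := by omega
  refine (pow_le_pow_iff_left₀ (mul_nonneg hΔ (hn _)) (mul_nonneg hη.le (hn _)) ht0).1 ?_
  rw [mul_pow, mul_pow]
  calc Δ ^ t * hh A (t - 1) ^ t ≤ Δ ^ t * ((Fintype.card V : ℝ) * hh A t ^ (t - 1)) :=
        mul_le_mul_of_nonneg_left h1 (pow_nonneg hΔ t)
    _ = ((Fintype.card V : ℝ) * Δ ^ t) * hh A t ^ (t - 1) := by ring
    _ ≤ (η ^ t * hh A t) * hh A t ^ (t - 1) :=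
        mul_le_mul_of_nonneg_right h (pow_nonneg (hn t) _)
    _ = η ^ t * (hh A t ^ (t - 1) * hh A t) := by ring
    _ = η ^ t * hh A t ^ t := by
        rw [← pow_succ, Nat.sub_add_cancel ht]

end Pool.Agent.F2
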